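import Pool.Agent.W307.RT.Stm

set_option autoImplicit false

open WeierstrassCurve

namespace Pool.Agent.W261.RT

/-- the curve -/
abbrev Wc (a2 a4 a6 : ℚ) : WeierstrassCurve ℚ := ⟨0, a2, 0, a4, a6⟩

/-- the transformed curve -/
abbrev Wd (a2 a4 a6 r u : ℚ) : WeierstrassCurve ℚ :=
  ⟨0, (a2 + 3 * r) / u ^ 2, 0, (a4 + 2 * r * a2 + 3 * r ^ 2) / u ^ 4,
      (a6 + r * a4 + r ^ 2 * a2 + r ^ 3) / u ^ 6⟩

variable {a2 a4 a6 r u : ℚ}

lemma eqn_iff (hu : u ≠ 0) (x y : ℚ) :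
    (Wd a2 a4 a6 r u).toAffine.Equation ((x - r) / u ^ 2) (y / u ^ 3) ↔
      (Wc a2 a4 a6).toAffine.Equation x y := by
  rw [Affine.equation_iff, Affine.equation_iff]
  simp only
  have e : ((x - r) / u ^ 2) ^ 3 + (a2 + 3 * r) / u ^ 2 * ((x - r) / u ^ 2) ^ 2 +
      (a4 + 2 * r * a2 + 3 * r ^ 2) / u ^ 4 * ((x - r) / u ^ 2) +
      (a6 + r * a4 + r ^ 2 * a2 + r ^ 3) / u ^ 6 =
      (x ^ 3 + a2 * x ^ 2 + a4 * x + a6) / u ^ 6 := by
    field_simp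
    ring
  have e2 : (y / u ^ 3) ^ 2 + 0 * ((x - r) / u ^ 2) * (y / u ^ 3) + 0 * (y / u ^ 3) =
      (y ^ 2 + 0 * x * y + 0 * y) / u ^ 6 := by
    field_simp
    ring
  rw [e, e2]
  have hu6 : u ^ 6 ≠ 0 := pow_ne_zero _ hu
  constructor
  · intro h
    exact (div_left_inj' hu6).1 h
  · intro h
    rw [h]

lemma ns_iff (hu : u ≠ 0) (x y : ℚ) :
    (Wd a2 a4 a6 r u).toAffine.Nonsingular ((x - r) / u ^ 2) (y / u ^ 3) ↔
      (Wc a2 a4 a6).toAffine.Nonsingular x y := by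
  rw [Affine.nonsingular_iff, Affine.nonsingular_iff, eqn_iff hu]
  simp only
  have hu4 : u ^ 4 ≠ 0 := pow_ne_zero _ hu
  have hu3 : u ^ 3 ≠ 0 := pow_ne_zero _ hu
  have e1 : 3 * ((x - r) / u ^ 2) ^ 2 + 2 * ((a2 + 3 * r) / u ^ 2) * ((x - r) / u ^ 2) +
      (a4 + 2 * r * a2 + 3 * r ^ 2) / u ^ 4 = (3 * x ^ 2 + 2 * a2 * x + a4) / u ^ 4 := by
    field_simp
    ring
  have e2 : (0 * (y / u ^ 3) ≠ (3 * x ^ 2 + 2 * a2 * x + a4) / u ^ 4) ↔
      (0 * y ≠ 3 * x ^ 2 + 2 * a2 * x + a4) := by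
    rw [zero_mul, zero_mul, ne_comm, ne_comm (a := (0 : ℚ))]
    constructor
    · intro h h2
      exact h (by rw [h2, zero_div])
    · intro h h2
      exact h ((div_eq_zero_iff.1 h2).resolve_right hu4)
  have e3 : (y / u ^ 3 ≠ -(y / u ^ 3) - 0 * ((x - r) / u ^ 2) - 0) ↔
      (y ≠ -y - 0 * x - 0) := by
    simp only [zero_mul, sub_zero]
    rw [← neg_div]
    exact not_congr (div_left_inj' hu3)
  rw [e1, e2, e3]

lemma negY_eq (x y : ℚ) : (Wd a2 a4 a6 r u).toAffine.negY ((x - r) / u ^ 2) (y / u ^ 3) =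
    (Wc a2 a4 a6).toAffine.negY x y / u ^ 3 := by
  simp only [Affine.negY]
  ring

lemma slope_eq (hu : u ≠ 0) (x₁ x₂ y₁ y₂ : ℚ) :
    (Wd a2 a4 a6 r u).toAffine.slope ((x₁ - r) / u ^ 2) ((x₂ - r) / u ^ 2) (y₁ / u ^ 3) (y₂ / u ^ 3) =
      (Wc a2 a4 a6).toAffine.slope x₁ x₂ y₁ y₂ / u := by
  have hu3 : u ^ 3 ≠ 0 := pow_ne_zero _ hu
  have hu2 : u ^ 2 ≠ 0 := pow_ne_zero _ hu
  by_cases hx : x₁ = x₂
  · by_cases hy : y₁ = (Wc a2 a4 a6).toAffine.negY x₂ y₂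
    · rw [Affine.slope_of_Y_eq hx hy, Affine.slope_of_Y_eq (by rw [hx]) (by rw [negY_eq, hy]),
        zero_div]
    · have hy' : y₁ / u ^ 3 ≠ (Wd a2 a4 a6 r u).toAffine.negY ((x₂ - r) / u ^ 2) (y₂ / u ^ 3) := by
        rw [negY_eq]
        exact fun h => hy ((div_left_inj' hu3).1 h)
      rw [Affine.slope_of_Y_ne hx hy, Affine.slope_of_Y_ne (by rw [hx]) hy', negY_eq]
      simp only
      have e1 : 3 * ((x₁ - r) / u ^ 2) ^ 2 + 2 * ((a2 + 3 * r) / u ^ 2) * ((x₁ - r) / u ^ 2) +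
          (a4 + 2 * r * a2 + 3 * r ^ 2) / u ^ 4 - 0 * (y₁ / u ^ 3) =
          (3 * x₁ ^ 2 + 2 * a2 * x₁ + a4 - 0 * y₁) / u ^ 4 := by
        field_simp
        ring
      rw [e1, ← sub_div, div_div_div_eq, div_div,
        show u ^ 4 * (y₁ - (Wc a2 a4 a6).toAffine.negY x₁ y₁) =
          ((y₁ - (Wc a2 a4 a6).toAffine.negY x₁ y₁) * u) * u ^ 3 by ring,
        mul_div_mul_right _ _ hu3]
  · have hx' : (x₁ - r) / u ^ 2 ≠ (x₂ - r) / u ^ 2 := by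
      intro h
      have := (div_left_inj' hu2).1 h
      exact hx (by linarith)
    rw [Affine.slope_of_X_ne hx, Affine.slope_of_X_ne hx']
    have h1 : x₁ - x₂ ≠ 0 := sub_ne_zero.2 hx
    have e1 : (x₁ - r) / u ^ 2 - (x₂ - r) / u ^ 2 = (x₁ - x₂) / u ^ 2 := by ring
    rw [e1]
    field_simp

lemma addX_eq (hu : u ≠ 0) (x₁ x₂ l : ℚ) :
    (Wd a2 a4 a6 r u).toAffine.addX ((x₁ - r) / u ^ 2) ((x₂ - r) / u ^ 2) (l / u) =
      ((Wc a2 a4 a6).toAffine.addX x₁ x₂ l - r) / u ^ 2 := by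
  simp only [Affine.addX]
  field_simp
  ring

lemma addY_eq (hu : u ≠ 0) (x₁ x₂ y₁ l : ℚ) :
    (Wd a2 a4 a6 r u).toAffine.addY ((x₁ - r) / u ^ 2) ((x₂ - r) / u ^ 2) (y₁ / u ^ 3) (l / u) =
      (Wc a2 a4 a6).toAffine.addY x₁ x₂ y₁ l / u ^ 3 := by
  simp only [Affine.addY, Affine.negAddY, Affine.negY, Affine.addX]
  field_simp
  ring

/-- the map on points -/
def toF (hu : u ≠ 0) : (Wc a2 a4 a6).toAffine.Point → (Wd a2 a4 a6 r u).toAffine.Point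
  | 0 => 0
  | .some x y h => .some ((x - r) / u ^ 2) (y / u ^ 3) ((ns_iff hu x y).2 h)

lemma toF_zero (hu : u ≠ 0) :
    toF (a2 := a2) (a4 := a4) (a6 := a6) (r := r) (u := u) hu 0 = 0 := rfl

lemma toF_some (hu : u ≠ 0) (x y : ℚ) (h : (Wc a2 a4 a6).toAffine.Nonsingular x y) :
    toF (r := r) (u := u) hu (.some x y h) =
      .some ((x - r) / u ^ 2) (y / u ^ 3) ((ns_iff hu x y).2 h) := rfl

lemma toF_add (hu : u ≠ 0) (P Q : (Wc a2 a4 a6).toAffine.Point) :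
    toF (r := r) (u := u) hu (P + Q) = toF hu P + toF hu Q := by
  have hu3 : u ^ 3 ≠ 0 := pow_ne_zero _ hu
  have hu2 : u ^ 2 ≠ 0 := pow_ne_zero _ hu
  match P, Q with
  | 0, Q => rw [zero_add, toF_zero, zero_add]
  | .some x y h, 0 => rw [add_zero, toF_zero, add_zero]
  | .some x₁ y₁ h₁, .some x₂ y₂ h₂ =>
    rw [toF_some, toF_some]
    by_cases hxy : x₁ = x₂ ∧ y₁ = (Wc a2 a4 a6).toAffine.negY x₂ y₂
    · rw [Affine.Point.add_of_Y_eq hxy.1 hxy.2,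
        Affine.Point.add_of_Y_eq (by rw [hxy.1]) (by rw [hxy.2, negY_eq]), toF_zero]
    · have hxy' : ¬ ((x₁ - r) / u ^ 2 = (x₂ - r) / u ^ 2 ∧
          y₁ / u ^ 3 = (Wd a2 a4 a6 r u).toAffine.negY ((x₂ - r) / u ^ 2) (y₂ / u ^ 3)) := by
        rintro ⟨q1, q2⟩
        apply hxy
        refine ⟨?_, ?_⟩
        · have := (div_left_inj' hu2).1 q1
          linarith
        · rw [negY_eq] at q2
          exact (div_left_inj' hu3).1 q2
      rw [Affine.Point.add_some hxy, Affine.Point.add_some hxy', toF_some]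
      rw [Affine.Point.some.injEq, slope_eq hu, addX_eq hu, addY_eq hu]
      exact ⟨rfl, rfl⟩

lemma toF_inj (hu : u ≠ 0) :
    Function.Injective (toF (a2 := a2) (a4 := a4) (a6 := a6) (r := r) (u := u) hu) := by
  have hu3 : u ^ 3 ≠ 0 := pow_ne_zero _ hu
  have hu2 : u ^ 2 ≠ 0 := pow_ne_zero _ hu
  intro P Q hPQ
  match P, Q with
  | 0, 0 => rfl
  | 0, .some x y h =>
    rw [toF_some, toF_zero] at hPQ
    exact absurd hPQ.symm (Affine.Point.some_ne_zero _)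
  | .some x y h, 0 =>
    rw [toF_some, toF_zero] at hPQ
    exact absurd hPQ (Affine.Point.some_ne_zero _)
  | .some x₁ y₁ h₁, .some x₂ y₂ h₂ =>
    rw [toF_some, toF_some, Affine.Point.some.injEq] at hPQ
    rw [Affine.Point.some.injEq]
    refine ⟨?_, (div_left_inj' hu3).1 hPQ.2⟩
    have := (div_left_inj' hu2).1 hPQ.1
    linarith

lemma toF_surj (hu : u ≠ 0) :
    Function.Surjective (toF (a2 := a2) (a4 := a4) (a6 := a6) (r := r) (u := u) hu) := by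
  intro Q
  match Q with
  | 0 => exact ⟨0, rfl⟩
  | .some x y h =>
    have ex : (u ^ 2 * x + r - r) / u ^ 2 = x := by field_simp; ring
    have ey : (u ^ 3 * y) / u ^ 3 = y := by field_simp
    have h' : (Wc a2 a4 a6).toAffine.Nonsingular (u ^ 2 * x + r) (u ^ 3 * y) := by
      rw [← ns_iff (r := r) (u := u) hu, ex, ey]
      exact h
    refine ⟨.some (u ^ 2 * x + r) (u ^ 3 * y) h', ?_⟩
    rw [toF_some, Affine.Point.some.injEq]
    exact ⟨ex, ey⟩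

theorem iso : Pool.Agent.W307.RT.ISO := by
  intro a2 a4 a6 r u hu
  exact ⟨AddEquiv.ofBijective
    (⟨⟨toF (a2 := a2) (a4 := a4) (a6 := a6) (r := r) (u := u) hu, toF_zero hu⟩, toF_add hu⟩ :
      (Wc a2 a4 a6).toAffine.Point →+ (Wd a2 a4 a6 r u).toAffine.Point)
    ⟨toF_inj hu, toF_surj hu⟩⟩

end Pool.Agent.W261.RT
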